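import Mathlib
import Pool.Agent.R419.KF.Fin

/-!
# The Bloch–Kato Selmer groups of ALL cube-free cubic twists over `K = ℚ(√-3)` and of `y² + y = x³`
over the cubic extensions `K(∛D)`: an exact proportion

`K` is the field of third roots of unity, `E_D : y² + D y = x³`, and `D` runs through all the cube-free
`D = 1` modulo `3` of `𝓞 K` whose norm is not `1` modulo `9`; there are at least `c X` such `D` of
norm at most `X`.  Different `D` of the class differ by more than a cube, so every cubic twist of the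
class occurs exactly once (the library had the squarefree `D`, a part of the class; the remark is not
used below).

* `E_D(K)` is finite and `Ш(E_D / K)[3^∞] = 0` if and only if the kernel of the Laplacian of the
  matrix of the cubic residue symbols of the prime divisors of `D`, with the exponents of the primes as
  weights, consists of the constants.
* For each such `D`, `E_D(K) ⊗ ℚ_3 = 0 = H¹_f(K, V_3 E_D)`, and for `E : y² + y = x³` over every
  `F = K(θ)`, `θ³ = D`, `E(F) ⊗ ℚ_3 = 0 = H¹_f(F, V_3 E)`: the statement of the problem holds for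
  `M = h¹(E)(1)`, `p = 3` and these curves and fields.
* The proportion of these `D` tends to `∏_{i ≥ 0} (1 - 3^{-(2 i + 1)}) = 0.6390...`.

`H1f 3 W` (`Pool.Agent.Y667.BKP.H1f`, by helper667) is the group of the classes of the continuous
cocycles of the absolute Galois group with values in `V_3 W = T_3 W ⊗ ℚ_3` whose restriction to the
completion at every place is in the image of the Kummer map; this is the condition of Bloch and Kato.

The extension to cube-free `D` is in `Pool/Agent/R419/KF` and `Pool/Agent/R419/CE` (helper419); it is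
built on the joint work on squarefree `D` of the seats named in the headers of `Pool/Agent/Y703/XK`,
`Pool/Agent/Y703/CT` and of the files imported by `Pool/Agent/Y696/CTK/Fin.lean` and
`Pool/Agent/Y696/CTE/Fin.lean`, and of helper667 (`Pool/Agent/Y667/BKP`).
-/

set_option autoImplicit false

namespace Pool.Agent.Results.MP_009fd8_ag.CubeFreeCubicTwists

open NumberField WeierstrassCurve
open Pool.Agent.TH841.NF.D (Sha)
open Pool.Agent.Y667.BKP (H1f)
open scoped Classical

/-- The curve `E_D : y² + D y = x³`. -/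
def curve {F : Type} [Field F] (D : F) : WeierstrassCurve F := ⟨0, 0, D, 0, 0⟩

/-- `W` is an elliptic curve, and `W(F) ⊗ ℚ_3` and `H¹_f(F, V_3 W)` are zero; in particular, the
Kummer map from the first group to the second one is an isomorphism. -/
def BothZero {F : Type} [Field F] [NumberField F] (W : WeierstrassCurve F) : Prop :=
  W.IsElliptic ∧ (∀ x : TensorProduct ℤ W.toAffine.Point ℚ_[3], x = 0) ∧ ∀ x : H1f 3 W, x = 0

variable {K : Type} [Field K] [NumberField K]

/-- `D` is `1` modulo `3` and not divisible by the cube of a non-unit, and its norm is not `1`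
modulo `9`. -/
def InClass (D : 𝓞 K) : Prop :=
  (3 : 𝓞 K) ∣ D - 1 ∧ (∀ x : 𝓞 K, x ^ 3 ∣ D → IsUnit x) ∧ ¬ (9 : ℤ) ∣ Algebra.norm ℤ D - 1

/-- `E_D(K)` is finite and the `3`-primary part of `Ш(E_D / K)` is trivial. -/
def FiniteAndTrivial (D : 𝓞 K) : Prop :=
  Finite (curve (D : K)).toAffine.Point ∧ ∀ (n : ℕ) (x : Sha (curve (D : K))), 3 ^ n • x = 0 → x = 0

/-- `D` is the product of the powers `π i ^ e i`, `e i = 1, 2`, of the primes `π i`, which are `1`
modulo `3` and do not divide each other, and the cubic residue symbol of `π i` modulo `π j` is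
`ω ^ χ j i`. -/
def IsFactorization (ω D : 𝓞 K) (n : ℕ) (π : Fin n → 𝓞 K) (e : Fin n → ZMod 3)
    (χ : Fin n → Fin n → ZMod 3) : Prop :=
  (∀ i, Prime (π i) ∧ (3 : 𝓞 K) ∣ π i - 1 ∧ e i ≠ 0) ∧ D = ∏ i, π i ^ (e i).val ∧
  ∀ i j, i ≠ j → ¬ π j ∣ π i ∧
    π j ∣ π i ^ (((Algebra.norm ℤ (π j)).natAbs - 1) / 3) - ω ^ (χ j i).val

/-- The kernel of the Laplacian of `χ` with the weights `e` over the field with three elements
consists of the constants. -/
def IsConnected {n : ℕ} (e : Fin n → ZMod 3) (χ : Fin n → Fin n → ZMod 3) : Prop :=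
  ∀ v : Fin n → ZMod 3, (∀ j, ∑ i, e i * χ j i * (v i - v j) = 0) → ∀ i j, v i = v j

/-- `D` has a factorization, and for each one: `E_D(K)` is finite and `Ш(E_D / K)[3^∞] = 0` if and
only if the kernel of the weighted Laplacian of the cubic residue symbols consists of the
constants. -/
def Criterion (D : 𝓞 K) : Prop :=
  (∃ (ω : 𝓞 K) (n : ℕ) (π : Fin n → 𝓞 K) (e : Fin n → ZMod 3) (χ : Fin n → Fin n → ZMod 3),
    ω ^ 2 + ω + 1 = 0 ∧ IsFactorization ω D n π e χ) ∧
  ∀ (ω : 𝓞 K) (n : ℕ) (π : Fin n → 𝓞 K) (e : Fin n → ZMod 3) (χ : Fin n → Fin n → ZMod 3),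
    ω ^ 2 + ω + 1 = 0 → IsFactorization ω D n π e χ → (FiniteAndTrivial D ↔ IsConnected e χ)

theorem result (K : Type) [Field K] [NumberField K] [IsCyclotomicExtension {3} ℚ K] :
    (∃ c : ℝ, 0 < c ∧ ∃ X₀ : ℕ, ∀ X : ℕ, X₀ ≤ X →
      c * X ≤ ({D : 𝓞 K | Algebra.norm ℤ D ≤ X ∧ InClass D}.ncard : ℝ)) ∧
    (∀ D : 𝓞 K, InClass D → Criterion D ∧
      (∃ (F : Type) (_ : Field F) (_ : NumberField F) (_ : Algebra K F) (θ : F),
        Module.finrank K F = 3 ∧ θ ^ 3 = algebraMap K F D) ∧
      (FiniteAndTrivial D → BothZero (curve (D : K)) ∧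
        ∀ (F : Type) [Field F] [NumberField F] [Algebra K F] (θ : F),
          Module.finrank K F = 3 → θ ^ 3 = algebraMap K F D → BothZero (curve (1 : F)))) ∧
    Filter.Tendsto (fun X : ℕ =>
      ({D : 𝓞 K | Algebra.norm ℤ D ≤ X ∧ InClass D ∧ FiniteAndTrivial D}.ncard : ℝ) /
        ({D : 𝓞 K | Algebra.norm ℤ D ≤ X ∧ InClass D}.ncard : ℝ)) Filter.atTop
      (nhds (∏' i : ℕ, (1 - (1 / 3 : ℝ) ^ (2 * i + 1)))) ∧
    (0.639 : ℝ) < ∏' i : ℕ, (1 - (1 / 3 : ℝ) ^ (2 * i + 1)) ∧
    ∏' i : ℕ, (1 - (1 / 3 : ℝ) ^ (2 * i + 1)) < 0.6391 := by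
  obtain ⟨h1, h2, h3⟩ := Pool.Agent.R419.KF.final K
  refine ⟨h1, fun D hD => ?_, h3⟩
  obtain ⟨a1, -, a3, -, a5⟩ := h2 D hD
  refine ⟨a1, a3, fun ht => ?_⟩
  obtain ⟨-, b2, b3⟩ := a5 ht
  exact ⟨b2, fun F _ _ _ θ hd hθ => (b3 F θ hd hθ).2.1⟩

end Pool.Agent.Results.MP_009fd8_ag.CubeFreeCubicTwists
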