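import Mathlib
import Pool.Agent.R384.Z.Pair

/-!
# Bloch–Kato Selmer groups of motives with separated weights over the `2`-extensions of `ℚ(√-d)`
# unramified outside `2`

The fields: `K = ℚ(√-d)`, where `d` is a prime number that is `7` modulo `16`, or the product of a
prime number that is `5` modulo `8` and of a prime number that is `3` modulo `8`. The prime `2` is the
product of two places `v`, `v'` of `K`. We consider all the fields `L ⊇ K` that are contained in a
finite Galois extension `M / K` of degree a power of `2`, unramified outside `2` (no condition on the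
structure of the Galois group of `M / K`; `L / K` need not be Galois).

The representations: all continuous `ρ : Gal(ℚ̄/L) → GL_n(ℤ_2)`, `n` arbitrary, that are unramified
outside `2` and such that the characteristic polynomial of every `ρ(σ)` is `(X - 1)^n` modulo `2`,
together with an idempotent `e` of `V = ℚ_2^n` which commutes with `ρ`. So `V = eV ⊕ (1 - e)V`.

The Selmer group: suppose that `V` is pure of weight `-1`, that the Hodge–Tate weights of `eV` at all
places of `L` above `v` are at most `0`, and that those of `(1 - e)V` at all places above `v'` are at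
most `0`. Then `H^1_f(L_w, eV) = 0` for `w ∣ v`, `H^1_f(L_w, (1 - e)V) = 0` for `w ∣ v'`. So the
Bloch–Kato classes are trivial on the inertia groups of the odd places, their component in `eV` is
trivial at all `w ∣ v` and their component in `(1 - e)V` is trivial at all `w ∣ v'`. If `V` is
polarized, with `(1 - e)V` dual to `eV` (for the realization of a polarized motive over `L` with an
action of `K` compatible with the polarization), the two conditions on the weights are equivalent.

Theorem: all such classes are zero. So the Bloch–Kato Selmer group of `V` over `L` is zero, and the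
Abel–Jacobi map of such a motive over `L` is onto.
-/

set_option autoImplicit false

namespace Pool.Agent.Results.MP_009fd8_ag.MotivesOverTwoExtensions

open Matrix

/-- An algebraic closure of `ℚ`. -/
abbrev QBar : Type := AlgebraicClosure ℚ

/-- The field `ℚ(s)`. It is `ℚ(√-d)` if `s² = -d`. -/
noncomputable abbrev K (s : QBar) : IntermediateField ℚ QBar := IntermediateField.adjoin ℚ {s}

/-- The absolute Galois group of `ℚ(s)`. -/
def Gal (s : QBar) : Type := QBar ≃ₐ[K s] QBar

/-- its group structure -/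
noncomputable instance instGroupGal (s : QBar) : Group (Gal s) := AlgEquiv.aut (R := K s) (A₁ := QBar)

/-- its Krull topology -/
noncomputable instance instTopGal (s : QBar) : TopologicalSpace (Gal s) := krullTopology (K s) QBar

/-- The action of the Galois group on `ℚ̄`. -/
noncomputable def app {s : QBar} (σ : Gal s) (x : QBar) : QBar := (show QBar ≃ₐ[K s] QBar from σ) x

/-- The class of the numbers `d`: the primes `7 mod 16`, and the products of a prime `5 mod 8` and of
a prime `3 mod 8`. -/
def InClass (d : ℕ) : Prop :=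
  (d.Prime ∧ d % 16 = 7) ∨ ∃ p q : ℕ, p.Prime ∧ q.Prime ∧ p % 8 = 5 ∧ q % 8 = 3 ∧ d = p * q

/-- The decomposition group of the place given by the embedding `ι` of `ℚ̄`. -/
def Dec {s : QBar} {p : ℕ} [Fact p.Prime] (ι : QBar →ₐ[ℚ] PadicAlgCl p) : Set (Gal s) :=
  {σ | ∃ τ : PadicAlgCl p ≃ₐ[ℚ_[p]] PadicAlgCl p, ∀ x, τ (ι x) = ι (app σ x)}

/-- Its inertia group: the automorphisms which are trivial on the residue field. -/
def Inr {s : QBar} {p : ℕ} [Fact p.Prime] (ι : QBar →ₐ[ℚ] PadicAlgCl p) : Set (Gal s) :=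
  {σ | ∃ τ : PadicAlgCl p ≃ₐ[ℚ_[p]] PadicAlgCl p, (∀ x, τ (ι x) = ι (app σ x)) ∧
    ∀ z : PadicAlgCl p, ‖z‖ ≤ 1 → ‖τ z - z‖ < 1}

/-- `N` is the Galois group of `ℚ̄ / M` for a finite Galois extension `M / ℚ(s)` whose degree is a
power of `2` and which is unramified outside `2`: `N` is a normal open subgroup of index a power of
`2` and contains the inertia groups of the odd primes. -/
structure TwoExtension {s : QBar} (N : Subgroup (Gal s)) : Prop where
  isOpen : IsOpen (N : Set (Gal s))
  normal : N.Normal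
  index : ∃ a : ℕ, N.index = 2 ^ a
  unramified : ∀ (p : ℕ) [Fact p.Prime] (ι : QBar →ₐ[ℚ] PadicAlgCl p), p ≠ 2 →
    ∀ σ ∈ (Inr ι : Set (Gal s)), σ ∈ N

/-- The representations of the Galois group `H` (of `ℚ̄ / L`) on `ℤ_2 ^ n`. -/
abbrev Rep {s : QBar} (H : Subgroup (Gal s)) (n : ℕ) : Type := H →* GL (Fin n) ℤ_[2]

/-- The representation is continuous, unramified outside `2`, and the characteristic polynomials are
`(X - 1) ^ n` modulo `2`. -/
structure Admissible {s : QBar} {H : Subgroup (Gal s)} {n : ℕ} (ρ : Rep H n) :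
    Prop where
  cont : ∀ i j, Continuous fun σ => (ρ σ : Matrix (Fin n) (Fin n) ℤ_[2]) i j
  unramified : ∀ (p : ℕ) [Fact p.Prime] (ι : QBar →ₐ[ℚ] PadicAlgCl p), p ≠ 2 →
    ∀ σ : H, (σ : Gal s) ∈ Inr ι → ρ σ = 1
  unipotent : ∀ σ, (ρ σ : Matrix (Fin n) (Fin n) ℤ_[2]).charpoly.map (PadicInt.toZMod (p := 2)) =
    (Polynomial.X - 1) ^ n

/-- The action of the Galois group on `V = ℚ_2 ^ n`. -/
noncomputable def act {s : QBar} {H : Subgroup (Gal s)} {n : ℕ} (ρ : Rep H n)
    (σ : H) (y : Fin n → ℚ_[2]) : Fin n → ℚ_[2] :=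
  ((ρ σ : Matrix (Fin n) (Fin n) ℤ_[2]).map (fun z : ℤ_[2] => (z : ℚ_[2]))) *ᵥ y

/-- `e` is an idempotent endomorphism of the representation `V`. -/
structure IsProjector {s : QBar} {H : Subgroup (Gal s)} {n : ℕ} (ρ : Rep H n)
    (e : Matrix (Fin n) (Fin n) ℚ_[2]) : Prop where
  idem : e * e = e
  comm : ∀ σ y, e *ᵥ act ρ σ y = act ρ σ (e *ᵥ y)

/-- The continuous cocycles with values in `V`. -/
structure IsCocycle {s : QBar} {H : Subgroup (Gal s)} {n : ℕ} (ρ : Rep H n)
    (c : H → Fin n → ℚ_[2]) : Prop where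
  cont : Continuous c
  mul : ∀ σ τ, c (σ * τ) = c σ + act ρ σ (c τ)

/-- The cocycle is equal to a coboundary on the elements of the Galois group of `L` which are in the
set `D`. -/
def TrivialOn {s : QBar} {H : Subgroup (Gal s)} {n : ℕ} (ρ : Rep H n) (D : Set (Gal s))
    (c : H → Fin n → ℚ_[2]) : Prop :=
  ∃ y, ∀ σ : H, (σ : Gal s) ∈ D → c σ = act ρ σ y - y

/-- The Bloch–Kato conditions, for a representation `V` which is pure of weight `-1`, if the
Hodge–Tate weights of `e V` at the places above `2` at which `(1 + s) / 2` is small and those of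
`(1 - e) V` at the places above `2` at which `(1 - s) / 2` is small are at most `0`. (The two
conditions on the places distinguish the two primes of `ℚ(s)` above `2`.) -/
structure IsSelmer {s : QBar} {H : Subgroup (Gal s)} {n : ℕ} (ρ : Rep H n)
    (e : Matrix (Fin n) (Fin n) ℚ_[2]) (c : H → Fin n → ℚ_[2]) : Prop where
  odd : ∀ (p : ℕ) [Fact p.Prime] (ι : QBar →ₐ[ℚ] PadicAlgCl p), p ≠ 2 → TrivialOn ρ (Inr ι) c
  first : ∀ ι : QBar →ₐ[ℚ] PadicAlgCl 2, ‖ι ((1 + s) / 2)‖ < 1 →
    TrivialOn ρ (Dec ι) fun σ => e *ᵥ c σ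
  second : ∀ ι : QBar →ₐ[ℚ] PadicAlgCl 2, ‖ι ((1 - s) / 2)‖ < 1 →
    TrivialOn ρ (Dec ι) fun σ => (1 - e) *ᵥ c σ

/-- **The Bloch–Kato Selmer groups vanish**, for all `n` and all `L` contained in a Galois extension
of `2`-power degree of `ℚ(√-d)` unramified outside `2`. -/
theorem result : ∀ d : ℕ, InClass d → ∀ s : QBar, s ^ 2 = -(d : QBar) →
    ∀ H N : Subgroup (Gal s), N ≤ H → TwoExtension N →
    ∀ (n : ℕ) (ρ : Rep H n), Admissible ρ → ∀ e : Matrix (Fin n) (Fin n) ℚ_[2], IsProjector ρ e →
    ∀ c : H → Fin n → ℚ_[2], IsCocycle ρ c → IsSelmer ρ e c →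
      TrivialOn ρ Set.univ c := by
  intro d hd s hs H N hNH hN n ρ hρ e he c hc hS
  obtain ⟨y, hy⟩ := Pool.Agent.Z384.pair hd hs hNH hN.normal hN.index hN.isOpen hN.unramified ρ
    hρ.cont hρ.unramified hρ.unipotent c hc.cont hc.mul hS.odd he.comm hS.first hS.second
  exact ⟨y, fun σ _ => hy σ⟩

end Pool.Agent.Results.MP_009fd8_ag.MotivesOverTwoExtensions
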