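import Pool.Agent.R901.LD.NfC

/-!
# Abel–Jacobi maps onto Bloch–Kato Selmer groups over extensions with any `p`-group as Galois group,
# `p` odd

`E : y² = x³ + a x + b` is an elliptic curve over `ℚ` and `l` is an odd prime such that the
`l`-Selmer group of `E` over `ℚ` is trivial: `E(ℚ)` is finite of order prime to `l` and
`Ш(E/ℚ)[l] = 0`.  (By Kolyvagin's theorem every `E` with `L(E, 1) ≠ 0` satisfies this for all
but finitely many `l`.)  `K` is a Galois extension of `ℚ` of degree `l ^ n`, with any Galois group,
abelian or not, such that the primes which divide `2 l (4 a³ + 27 b²)` split completely in `K` and the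
number of the points of `E` modulo the primes that ramify in `K` is prime to `l`; and `F` is any
subfield of `K`, Galois over `ℚ` or not.

Then `E(F)` is finite of order prime to `l`, `Ш(E/F)[l^∞] = 0`, and `E(F) ⊗ ℚ_l = 0` and the
Bloch–Kato Selmer group `H¹_f(F, V_l E)` is zero, so that the `l`-adic Abel–Jacobi map of the motive
`h¹(E)(1)` over `F` is an isomorphism of `CH(M)⁰ ⊗ ℚ_l` onto `H¹_f(F, M_l)`, for `p = l`.

The proof is by descent with cocycles (`Pool/Agent/R901/LD`).  The group of the `l`-torsion
cocycles on `G_K` that are locally trivial in `E` is a group of exponent `l` with an action of the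
`l`-group `Gal(K/ℚ)`.  If it has a class that is not zero, it has such a class that is fixed by the
Galois group; as `E(K)` has no points of order `l`, the class comes from a cocycle on `G_ℚ`, and one
shows that this cocycle is locally trivial: clear at the split primes; at the primes of good reduction,
not dividing `l`, which are unramified in `K` the class is unramified over `ℚ`; at the admissible
primes the `l`-group `Gal(K_v/ℚ_p)` is treated with the help of the reduction map, `E(𝔽_p)` having no
points of order `l`; at the real place as `l` is odd.  Starting and earlier results treat `l = 2`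
(`MP_787500_nt.GaloisTwoExtensions`) with quadratic resolvents and square classes; here no such
description of the Selmer group is available, and everything is done with cocycles.
-/

set_option autoImplicit false

open NumberField IsDedekindDomain

namespace Pool.Agent.Results.MP_009fd8_ag.OddOrderGaloisGroups

open Pool.Agent.Y667.BKP (H1f)

/-- The curve `E : y² = x³ + a x + b` over the field `F`. -/
def curve (a b : ℤ) (F : Type) [Field F] : WeierstrassCurve F := ⟨0, 0, 0, (a : F), (b : F)⟩

/-- The group `E(F)`. -/
abbrev Points (a b : ℤ) (F : Type) [Field F] : Type := (curve a b F).toAffine.Point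

/-- The number of the pairs `(x, y) ∈ (ℤ/p)²` with `y² = x³ + a x + b`. -/
noncomputable def pointCount (a b : ℤ) (p : ℕ) : ℕ :=
  Nat.card {v : ZMod p × ZMod p // v.2 ^ 2 = v.1 ^ 3 + (a : ZMod p) * v.1 + b}

open Classical in
/-- The `l`-Selmer group of `E` over `ℚ` is trivial: `E(ℚ)` is finite of order prime to `l` and
`Ш(E/ℚ)` has no element of order `l`. -/
def TrivialSelmer (a b : ℤ) (l : ℕ) : Prop :=
  Finite (Points a b ℚ) ∧ ¬ l ∣ Nat.card (Points a b ℚ) ∧
  ∀ s : Pool.Agent.TH841.SH.D.Sha (curve a b ℚ), l • s = 0 → s = 0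

/-- The prime `p` is unramified in `K`: it has valuation one at all the places above it. -/
def Unramified (K : Type) [Field K] [NumberField K] (p : ℕ) : Prop :=
  ∀ v : HeightOneSpectrum (𝓞 K), (p : 𝓞 K) ∈ v.asIdeal →
    v.valuation K (p : K) = WithZero.exp (-1 : ℤ)

/-- The prime `p` splits completely in `K`: it is unramified and the residue fields of the places
above it are the prime field. -/
def SplitsCompletely (K : Type) [Field K] [NumberField K] (p : ℕ) : Prop :=
  Unramified K p ∧ ∀ v : HeightOneSpectrum (𝓞 K), (p : 𝓞 K) ∈ v.asIdeal →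
    Ideal.absNorm v.asIdeal = p

/-- `K` is a Galois extension of `ℚ` of degree a power of `l`, the primes dividing
`2 l (4 a³ + 27 b²)` split completely in `K`, and every other prime `p` is unramified in `K`, or the
number `N_p + 1` of the points of `E` modulo `p` (with the point at infinity) is not divisible
by `l`. -/
structure IsAdmissibleField (a b : ℤ) (l : ℕ) (K : Type) [Field K] [NumberField K] : Prop where
  galois : IsGalois ℚ K
  degree : ∃ n : ℕ, Module.finrank ℚ K = l ^ n
  split : ∀ p : ℕ, p.Prime → (p : ℤ) ∣ 2 * l * (4 * a ^ 3 + 27 * b ^ 2) → SplitsCompletely K p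
  ramified : ∀ p : ℕ, p.Prime → ¬ (p : ℤ) ∣ 2 * l * (4 * a ^ 3 + 27 * b ^ 2) →
    Unramified K p ∨ ¬ l ∣ pointCount a b p + 1

open Classical in
/-- `E(F)` is finite of order prime to `l` and `Ш(E/F)[l^∞] = 0`. -/
def TrivialOver (a b : ℤ) (l : ℕ) (F : Type) [Field F] [NumberField F] : Prop :=
  Finite (Points a b F) ∧ ¬ l ∣ Nat.card (Points a b F) ∧
  ∀ (n : ℕ) (s : Pool.Agent.TH841.NF.D.Sha (curve a b F)), l ^ n • s = 0 → s = 0

open Classical in
/-- `E(F) ⊗ ℚ_l` and `H¹_f(F, V_l E)` are zero. -/
def BothZero (a b : ℤ) (l : ℕ) [Fact l.Prime] (F : Type) [Field F] [NumberField F] : Prop :=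
  (∀ x : TensorProduct ℤ (Points a b F) ℚ_[l], x = 0) ∧ ∀ x : H1f l (curve a b F), x = 0

theorem trivSel_of {a b : ℤ} {l : ℕ} (h : TrivialSelmer a b l) :
    Pool.Agent.R901.LD.TrivSel a b l := by
  obtain ⟨f⟩ := Pool.Agent.R901.LD.equiv_WK a b ℚ
  obtain ⟨h1, h2, h3⟩ := h
  have f' : Pool.Agent.R901.LD.SP a b ℚ ≃ Points a b ℚ := f
  refine ⟨Finite.of_equiv _ f'.symm, ?_, h3⟩
  rw [Nat.card_congr f']
  exact h2

/-- **Theorem.** Let `E : y² = x³ + a x + b` be an elliptic curve over `ℚ` with trivial `l`-Selmer
group, `l` an odd prime, let `K` be a Galois extension of `ℚ` of degree a power of `l` (with any Galois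
group) in which the primes that divide `2 l (4 a³ + 27 b²)` split completely and such that the number
of the points of `E` modulo the primes that ramify in `K` is prime to `l`, and let `F` be a number
field that is contained in `K`. Then `E(F)` is finite of order prime to `l`, `Ш(E/F)[l^∞] = 0`, and
`E(F) ⊗ ℚ_l` and `H¹_f(F, V_l E)` are zero: the `l`-adic Abel–Jacobi map is an isomorphism. -/
theorem result (a b : ℤ) (hE : 4 * a ^ 3 + 27 * b ^ 2 ≠ 0) (l : ℕ) [hl : Fact l.Prime]
    (hl2 : l ≠ 2) (hS : TrivialSelmer a b l) (K : Type) [Field K] [NumberField K]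
    (hK : IsAdmissibleField a b l K) (F : Type) [Field F] [NumberField F] [Algebra F K] :
    TrivialOver a b l F ∧ BothZero a b l F := by
  have hA : Pool.Agent.R901.LD.AdmF a b l K := by
    refine ⟨hK.galois, hK.degree, fun p hp hd v hv => ?_, fun p hp hd => ?_⟩
    · obtain ⟨h1, h2⟩ := hK.split p hp hd
      exact ⟨h1 v hv, h2 v hv⟩
    · rcases hK.ramified p hp hd with h | h
      · exact Or.inr h
      · exact Or.inl h
  obtain ⟨h1, h2, h3⟩ := Pool.Agent.R901.LD.sub_main hl.1 hl2 hE (trivSel_of hS) K hA F
  obtain ⟨h4, h5⟩ := Pool.Agent.R901.LD.fin_WK h1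
  obtain ⟨h6, h7⟩ := Pool.Agent.R901.LD.bk_zero h4 h3
  exact ⟨⟨h4, by rw [← h5] at h2; exact h2, h3⟩, h6, h7⟩

end Pool.Agent.Results.MP_009fd8_ag.OddOrderGaloisGroups
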