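import Pool.Agent.R898.BJM

/-!
# Abel–Jacobi maps onto Bloch–Kato Selmer groups: one Lefschetz step, and primitive classes

The setting: `𝒱` is a class of smooth projective varieties over a field `k` (a number field in the
problem), closed under products, `C` stands for the Chow groups with rational coefficients, `L` is a
field of characteristic zero (the field of `p`-adic numbers in the problem). `E` and `J` are families
of `L`-vector spaces `E X j`, `J X j`, zero for `j = 0` and `j > dim X`, on which the correspondences
act functorially (`CorrMod`), and `φ : E → J` commutes with these actions (`Natural`). In the problem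
`E X j = CH^j(X)_hom ⊗ Q_p`, `J X j = H^1_f(k, H^(2j-1)(X̄, Q_p(j)))`, and `φ` is the linearized
Abel–Jacobi map.

`S` is a class of pairs `(X, D)` of a variety and a divisor class, and `(P a, h a)` is for each `a` a
variety of dimension `a` with a divisor class with `deg (h a)^a > 0`, such that `S` is closed under the
products with the `(P a, h a)` (`IsStable`). Example: all smooth projective varieties with the ample
divisor classes, and the projective spaces with the class of a hyperplane. `HardLef J S`: the maps
`D^a : J X j → J X (j + a)` are bijective if `(2j - 1) + a = dim X`; in the example this is a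
consequence of the hard Lefschetz theorem for `p`-adic cohomology.

The theorem: let `I` and `I'` be arbitrary infinite sets of natural numbers. The map
`φ : E X j → J X j` is bijective for all `(X, D)` in `S` and all `j` if and only if

(a) for the `(X, D)` in `S` with `dim X = 2j`, `j ∈ I`, the map `D : E X j → E X (j + 1)` is
    surjective (`StepOnto`), and
(b) for the `(X, D)` in `S` with `dim X = 2j - 1`, `j ∈ I'`, the map `φ` is injective on the kernel of
    `D : E X j → E X (j + 1)`, and its image contains the kernel of `D : J X j → J X (j + 1)`, the
    primitive part of `J X j` (`PrimBij`).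

So the bijectivity in all degrees, for all varieties, is reduced to the primitive part of the middle
cohomology, which is self-dual, and to (a), which does not involve the Selmer groups. No standard
conjecture is assumed. The proof uses the classes `ω = ∑ (-D)^l h^(a-l)` on the products `X × P a`.
-/

open Pool.Agent.H914 Pool.Agent.R903 Pool.Agent.R898.HL Pool.Agent.R898.BJ

universe u v w

/-- Reduction of the bijectivity to one Lefschetz step and to primitive classes. -/
theorem Pool.Agent.Results.MP_009fd8_ag.OneStepAndPrimitive.result {k : Type u} [Field k]
    {𝒱 : VarClass k} (C : ChowTheory.{u, v} 𝒱) (L : Type v) [Field L] [CharZero L]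
    (E J : CorrMod C L) (φ : ∀ X j, E.M X j →ₗ[L] J.M X j) (hφ : Natural E J φ)
    (S : ∀ X : 𝒱.Obj, C.CH X → Prop) (P : ℕ → 𝒱.Obj) (h : ∀ a, C.CH (P a))
    (hS : IsStable C S P h) (hH : HardLef J S) (I I' : Set ℕ) (hI : Unbounded I)
    (hI' : Unbounded I') :
    (∀ X D, S X D → ∀ j, Bij (φ X j)) ↔ StepOnto E S I ∧ PrimBij E J φ S I' :=
  main hS hI hI' hφ hH
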